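import Pool.Agent.K3h83.IN.Stm6
import Pool.Agent.K3h42.IN.M3

/-! # Bricks D4, D6 (helper83's cyclic wave): traces of homomorphisms of modular representations -/

set_option autoImplicit false

open scoped BigOperators Classical

noncomputable section

namespace Pool.Agent.K3h50.CY

open Pool.Agent.K3h83.IN Pool.Agent.K3h3.MK
open Pool.Agent.K3h42.IN.M3 (trans trans_apply trans_irr exists_proper rt)

section cosets

/-- sums over a group as sums over cosets -/
lemma sum_cosets {X M : Type} [Group X] [Fintype X] [AddCommMonoid M] (K : Subgroup X)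
    [Fintype (X ⧸ K)] [Fintype K] (G : X → M) :
    ∑ x : X, G x = ∑ c : X ⧸ K, ∑ k : K, G (c.out * k) := by
  have hb : Function.Bijective (fun r : (X ⧸ K) × K => (r.1.out * (r.2 : X) : X)) := by
    constructor
    · rintro ⟨c, k⟩ ⟨c', k'⟩ h
      have h' : c.out * (k : X) = c'.out * (k' : X) := h
      have h1 : c = c' := by
        have h2 : ((c.out * (k : X) : X) : X ⧸ K) = c := by
          rw [QuotientGroup.mk_mul_of_mem _ k.2, QuotientGroup.out_eq']
        have h3 : ((c'.out * (k' : X) : X) : X ⧸ K) = c' := by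
          rw [QuotientGroup.mk_mul_of_mem _ k'.2, QuotientGroup.out_eq']
        rw [← h2, ← h3, h']
      subst h1
      have h4 : k = k' := Subtype.ext (mul_left_cancel h')
      rw [h4]
    · intro x
      refine ⟨((x : X ⧸ K), ⟨((x : X ⧸ K).out)⁻¹ * x, ?_⟩), ?_⟩
      · rw [← QuotientGroup.eq, QuotientGroup.out_eq']
      · show ((x : X ⧸ K).out) * (((x : X ⧸ K).out)⁻¹ * x) = x
        rw [mul_inv_cancel_left]
  rw [← Fintype.sum_prod_type' (f := fun (c : X ⧸ K) (k : K) => G (c.out * k))]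
  exact (hb.sum_comp G).symm

end cosets

section tr

variable {F B X V W : Type} [Field F] [Group B] [Finite B] [Group X] [AddCommGroup V] [Module F V]
    [AddCommGroup W] [Module F W]

/-- traces -/
def trB (ι : B →* X) (ρ : Representation F X V) (τ : Representation F B W) (θ : W →ₗ[F] V) :
    W →ₗ[F] V :=
  letI := Fintype.ofFinite B
  ∑ b : B, ρ (ι b) ∘ₗ θ ∘ₗ τ b⁻¹

lemma trB_apply [Fintype B] (ι : B →* X) (ρ : Representation F X V) (τ : Representation F B W)
    (θ : W →ₗ[F] V) (w : W) : trB ι ρ τ θ w = ∑ b : B, ρ (ι b) (θ (τ b⁻¹ w)) := by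
  unfold trB
  rw [LinearMap.sum_apply]
  exact Finset.sum_congr (by ext; simp) fun _ _ => rfl

lemma occS_iff (ι : B →* X) (ρ : Representation F X V) (τ : Representation F B W) :
    OccS ι ρ τ ↔ ∃ f : W →ₗ[F] V, (∀ (b : B) (w : W), ρ (ι b) (f w) = f (τ b w)) ∧
      ¬ ∃ θ : W →ₗ[F] V, f = trB ι ρ τ θ := Iff.rfl

lemma trB_comm (ι : B →* X) (ρ : Representation F X V) (τ : Representation F B W)
    (θ : W →ₗ[F] V) (b : B) (w : W) : ρ (ι b) (trB ι ρ τ θ w) = trB ι ρ τ θ (τ b w) := by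
  letI := Fintype.ofFinite B
  rw [trB_apply, trB_apply, map_sum, ← Equiv.sum_comp (Equiv.mulLeft b)
    (fun b' : B => ρ (ι b') (θ (τ b'⁻¹ (τ b w))))]
  refine Finset.sum_congr rfl fun b' _ => ?_
  show ρ (ι b) (ρ (ι b') (θ (τ b'⁻¹ w))) = ρ (ι (b * b')) (θ (τ (b * b')⁻¹ (τ b w)))
  have e1 : τ (b * b')⁻¹ (τ b w) = τ b'⁻¹ w := by
    rw [← Module.End.mul_apply, ← map_mul]
    congr 2
    group
  rw [e1, map_mul, map_mul, Module.End.mul_apply]

lemma trB_add (ι : B →* X) (ρ : Representation F X V) (τ : Representation F B W)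
    (θ θ' : W →ₗ[F] V) : trB ι ρ τ (θ + θ') = trB ι ρ τ θ + trB ι ρ τ θ' := by
  letI := Fintype.ofFinite B
  ext w
  rw [LinearMap.add_apply, trB_apply, trB_apply, trB_apply, ← Finset.sum_add_distrib]
  refine Finset.sum_congr rfl fun b _ => ?_
  rw [LinearMap.add_apply, map_add]

lemma trB_map {V₂ : Type} [AddCommGroup V₂] [Module F V₂] (ι : B →* X) (ρ : Representation F X V)
    (ρ₂ : Representation F X V₂) (τ : Representation F B W) (φ : V →ₗ[F] V₂)
    (hφ : ∀ g v, φ (ρ g v) = ρ₂ g (φ v)) (θ : W →ₗ[F] V) :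
    φ ∘ₗ trB ι ρ τ θ = trB ι ρ₂ τ (φ ∘ₗ θ) := by
  letI := Fintype.ofFinite B
  ext w
  rw [LinearMap.comp_apply, trB_apply, trB_apply, map_sum]
  exact Finset.sum_congr rfl fun b _ => hφ _ _

/-- representations without stable homomorphisms are closed under extensions -/
lemma ext_free (ι : B →* X) (ρ : Representation F X V) (τ : Representation F B W)
    (U : Submodule F V) (hU : ∀ g, U ≤ U.comap (ρ g))
    (h1 : ¬ OccS ι (ρ.quotient U hU) τ) (h2 : ¬ OccS ι (ρ.subrepresentation U hU) τ) :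
    ¬ OccS ι ρ τ := by
  rw [occS_iff] at h1 h2 ⊢
  rintro ⟨f, hf, hno⟩
  have hφ : ∀ g v, U.mkQ (ρ g v) = (ρ.quotient U hU) g (U.mkQ v) := fun g v => rfl
  obtain ⟨θ'', h3⟩ : ∃ θ'' : W →ₗ[F] V ⧸ U, U.mkQ ∘ₗ f = trB ι (ρ.quotient U hU) τ θ'' := by
    by_contra hcon
    refine h1 ⟨U.mkQ ∘ₗ f, fun b w => ?_, hcon⟩
    rw [LinearMap.comp_apply, LinearMap.comp_apply, ← hφ, hf]
  obtain ⟨s, hs⟩ := LinearMap.exists_rightInverse_of_surjective U.mkQ
    (LinearMap.range_eq_top.2 U.mkQ_surjective)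
  obtain ⟨g, hg⟩ : ∃ g : W →ₗ[F] V, g = f - trB ι ρ τ (s ∘ₗ θ'') := ⟨_, rfl⟩
  have hgU : ∀ w, g w ∈ U := by
    intro w
    rw [← Submodule.ker_mkQ U, LinearMap.mem_ker, ← LinearMap.comp_apply, hg, LinearMap.comp_sub,
      h3, trB_map ι ρ (ρ.quotient U hU) τ U.mkQ hφ, ← LinearMap.comp_assoc, hs, LinearMap.id_comp,
      sub_self, LinearMap.zero_apply]
  have hgc : ∀ (b : B) (w : W), ρ (ι b) (g w) = g (τ b w) := by
    intro b w
    rw [hg, LinearMap.sub_apply, LinearMap.sub_apply, map_sub, trB_comm, hf]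
  obtain ⟨θ₁, h4⟩ : ∃ θ₁ : W →ₗ[F] U, LinearMap.codRestrict U g hgU =
      trB ι (ρ.subrepresentation U hU) τ θ₁ := by
    by_contra hcon
    refine h2 ⟨LinearMap.codRestrict U g hgU, fun b w => ?_, hcon⟩
    apply Subtype.ext
    exact hgc b w
  refine hno ⟨s ∘ₗ θ'' + U.subtype ∘ₗ θ₁, ?_⟩
  have hincl : ∀ (x : X) (v : U), U.subtype ((ρ.subrepresentation U hU) x v) = ρ x (U.subtype v) :=
    fun x v => rfl
  rw [trB_add, ← trB_map ι (ρ.subrepresentation U hU) ρ τ U.subtype hincl, ← h4]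
  have h5 : U.subtype ∘ₗ LinearMap.codRestrict U g hgU = g := by
    ext w
    rfl
  rw [h5, hg]
  abel

/-- transport -/
lemma occ_equiv {V₂ : Type} [AddCommGroup V₂] [Module F V₂] (ι : B →* X)
    (ρ : Representation F X V) (ρ₂ : Representation F X V₂) (τ : Representation F B W)
    (e : V ≃ₗ[F] V₂) (he : ∀ g v, e (ρ g v) = ρ₂ g (e v)) (h : OccS ι ρ τ) : OccS ι ρ₂ τ := by
  rw [occS_iff] at h ⊢
  obtain ⟨f, hf, hno⟩ := h
  refine ⟨(e : V →ₗ[F] V₂) ∘ₗ f, fun b w => ?_, ?_⟩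
  · show ρ₂ (ι b) (e (f w)) = e (f (τ b w))
    rw [← he, hf]
  · rintro ⟨θ, hθ⟩
    have he' : ∀ g v, (e.symm : V₂ →ₗ[F] V) (ρ₂ g v) = ρ g ((e.symm : V₂ →ₗ[F] V) v) := by
      intro g v
      show e.symm (ρ₂ g v) = ρ g (e.symm v)
      apply e.injective
      rw [he, e.apply_symm_apply, e.apply_symm_apply]
    refine hno ⟨(e.symm : V₂ →ₗ[F] V) ∘ₗ θ, ?_⟩
    rw [← trB_map ι ρ₂ ρ τ (e.symm : V₂ →ₗ[F] V) he', ← hθ]
    ext w
    exact (e.symm_apply_apply (f w)).symm

/-- if no irreducible representation has stable homomorphisms, no representation has -/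
lemma no_occ [Finite X] (ι : B →* X) (τ : Representation F B W)
    (hno : ∀ (m : ℕ) (ρ : Representation F X (Fin m → F)), ρ.IsIrreducible → ¬ OccS ι ρ τ) :
    ∀ (d : ℕ) (V : Type) [AddCommGroup V] [Module F V] [FiniteDimensional F V]
      (ρ : Representation F X V), Module.finrank F V = d → ¬ OccS ι ρ τ := by
  intro d
  induction d using Nat.strongRecOn with
  | ind d ih =>
    intro V _ _ _ ρ hd
    by_cases hirr : ρ.IsIrreducible
    · intro hocc
      obtain ⟨e⟩ : Nonempty (V ≃ₗ[F] (Fin (Module.finrank F V) → F)) :=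
        ⟨(Module.finBasis F V).equivFun⟩
      exact hno _ (trans ρ e) (trans_irr e hirr) (occ_equiv ι ρ _ τ e (trans_apply e) hocc)
    · by_cases hV : Nontrivial V
      · obtain ⟨U, hU, hU0, hU1⟩ := exists_proper hirr hV
        have h1 : Module.finrank F U < d := by
          rw [← hd]
          exact Submodule.finrank_lt hU1
        have h2 : Module.finrank F (V ⧸ U) < d := by
          have h3 := Submodule.finrank_quotient_add_finrank U
          have h4 : 0 < Module.finrank F U := by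
            rw [Nat.pos_iff_ne_zero]
            intro h0
            exact hU0 (Submodule.finrank_eq_zero.1 h0)
          omega
        exact ext_free ι ρ τ U hU (ih _ h2 (V ⧸ U) _ rfl) (ih _ h1 U _ rfl)
      · rintro ⟨f, _, hf⟩
        rw [not_nontrivial_iff_subsingleton] at hV
        apply hf
        refine ⟨0, ?_⟩
        ext w
        exact Subsingleton.elim _ _

/-- the induced representation, as a space of functions -/
def indS (ι : B →* X) (τ : Representation F B W) : Submodule F (X → W) where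
  carrier := {f | ∀ (b : B) (x : X), f (ι b * x) = τ b (f x)}
  add_mem' := by
    intro a b ha hb k g
    rw [Pi.add_apply, Pi.add_apply, ha k g, hb k g, map_add]
  zero_mem' := fun k g => by
    rw [Pi.zero_apply, Pi.zero_apply, map_zero]
  smul_mem' := by
    intro c a ha k g
    rw [Pi.smul_apply, Pi.smul_apply, ha k g, map_smul]

lemma indS_stable [Finite X] (ι : B →* X) (τ : Representation F B W) (g : X) :
    indS ι τ ≤ (indS ι τ).comap (rt (F := F) W g) := by
  intro f hf k h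
  show f (ι k * h * g) = τ k (f (h * g))
  rw [mul_assoc]
  exact hf k (h * g)

/-- a function invariant under a subgroup of order `p` has sum zero -/
lemma sum_inv {p : ℕ} [CharP F p] [Fintype B] (Q : Subgroup B) (hQ : Nat.card Q = p) (G : B → W)
    (hG : ∀ b, ∀ q ∈ Q, G (b * q) = G b) : ∑ b : B, G b = 0 := by
  letI := Fintype.ofFinite Q
  letI := Fintype.ofFinite (B ⧸ Q)
  rw [sum_cosets Q G]
  refine Finset.sum_eq_zero fun c _ => ?_
  have h1 : ∑ k : Q, G (c.out * (k : B)) = ∑ _k : Q, G c.out :=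
    Finset.sum_congr rfl fun k _ => hG _ _ k.2
  rw [h1, Finset.sum_const, Finset.card_univ, ← Nat.card_eq_fintype_card, hQ,
    ← Nat.cast_smul_eq_nsmul F, CharP.cast_eq_zero F p, zero_smul]

lemma ind_occ [Finite X] {p : ℕ} [CharP F p] (Q : Subgroup B) (hQ : Nat.card Q = p) (ι : B →* X)
    (hι : Function.Injective ι) (τ : Representation F B W)
    (hτ : ∀ x ∈ Q, τ x = 1) (w₀ : W) (hw₀ : w₀ ≠ 0) :
    OccS ι ((rt (F := F) W).subrepresentation (indS ι τ) (indS_stable ι τ)) τ := by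
  rw [occS_iff]
  letI := Fintype.ofFinite B
  obtain ⟨q, hq⟩ : ∃ q : W → X → W, q = fun w h =>
    if hh : ∃ b, ι b = h then τ hh.choose w else 0 := ⟨_, rfl⟩
  have hq1 : ∀ w (b : B), q w (ι b) = τ b w := by
    intro w b
    have hh : ∃ b', ι b' = ι b := ⟨b, rfl⟩
    rw [hq]
    show (if hh : ∃ b', ι b' = ι b then τ hh.choose w else 0) = τ b w
    rw [dif_pos hh, hι hh.choose_spec]
  have hq2 : ∀ w (h : X), (¬ ∃ b, ι b = h) → q w h = 0 := by
    intro w h hh
    rw [hq]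
    exact dif_neg hh
  have hqmem : ∀ w, q w ∈ indS ι τ := by
    intro w k h
    by_cases hh : ∃ b, ι b = h
    · obtain ⟨b, rfl⟩ := hh
      rw [← map_mul, hq1, hq1, map_mul, Module.End.mul_apply]
    · rw [hq2 w h hh, hq2 w _ ?_, map_zero]
      rintro ⟨b, hb⟩
      exact hh ⟨k⁻¹ * b, by rw [map_mul, hb, map_inv, inv_mul_cancel_left]⟩
  obtain ⟨f, hf⟩ : ∃ f : W →ₗ[F] indS ι τ, ∀ w, ((f w : indS ι τ) : X → W) = q w := by
    refine ⟨LinearMap.mk (AddHom.mk (fun w => ⟨q w, hqmem w⟩) fun a b => ?_) fun c a => ?_,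
      fun w => rfl⟩
    · apply Subtype.ext
      funext h
      show q (a + b) h = q a h + q b h
      by_cases hh : ∃ b, ι b = h
      · obtain ⟨b', rfl⟩ := hh
        rw [hq1, hq1, hq1, map_add]
      · rw [hq2 _ h hh, hq2 _ h hh, hq2 _ h hh, add_zero]
    · apply Subtype.ext
      funext h
      show q (c • a) h = c • q a h
      by_cases hh : ∃ b, ι b = h
      · obtain ⟨b', rfl⟩ := hh
        rw [hq1, hq1, map_smul]
      · rw [hq2 _ h hh, hq2 _ h hh, smul_zero]
  have hact : ∀ (k : B) (w : W) (h : X), q w (h * ι k) = q (τ k w) h := by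
    intro k w h
    by_cases hh : ∃ b, ι b = h
    · obtain ⟨b, rfl⟩ := hh
      rw [← map_mul, hq1, hq1, map_mul, Module.End.mul_apply]
    · rw [hq2 _ h hh, hq2 w _ ?_]
      rintro ⟨b, hb⟩
      exact hh ⟨b * k⁻¹, by rw [map_mul, hb, map_inv, mul_inv_cancel_right]⟩
  refine ⟨f, fun k w => ?_, ?_⟩
  · apply Subtype.ext
    funext h
    show (f w : X → W) (h * ι k) = (f (τ k w) : X → W) h
    rw [hf, hf]
    exact hact k w h
  · rintro ⟨θ, hθ⟩
    have h1 : ((f w₀ : indS ι τ) : X → W) 1 = w₀ := by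
      rw [hf, ← map_one ι, hq1, map_one]
      rfl
    have h2 : ((f w₀ : indS ι τ) : X → W) 1 =
        ∑ b : B, τ b (((θ (τ b⁻¹ w₀) : indS ι τ) : X → W) 1) := by
      rw [hθ, trB_apply, Submodule.coe_sum, Finset.sum_apply]
      refine Finset.sum_congr rfl fun b _ => ?_
      show ((θ (τ b⁻¹ w₀) : indS ι τ) : X → W) (1 * ι b) = _
      rw [one_mul, ← mul_one (ι b)]
      exact (θ (τ b⁻¹ w₀)).2 b 1
    rw [h1] at h2
    apply hw₀
    rw [h2]
    refine sum_inv (F := F) Q hQ _ fun b y hy => ?_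
    rw [mul_inv_rev, map_mul, map_mul, hτ y hy, hτ y⁻¹ (Q.inv_mem hy), mul_one, one_mul]

/-- a normal subgroup of order `p` acts trivially on irreducible representations -/
lemma triv {p : ℕ} [Fact p.Prime] [CharP F p] (Q : Subgroup B) (hQn : Q.Normal)
    (hQ : Nat.card Q = p) (τ : Representation F B W) (hirr : τ.IsIrreducible) :
    ∀ x ∈ Q, τ x = 1 := by
  intro x hx
  obtain ⟨w₀, hw₀⟩ : ∃ w₀ : W, w₀ ≠ 0 := by
    by_contra hc
    push Not at hc
    have h1 : (⊥ : Subrepresentation τ) = ⊤ := by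
      apply Subrepresentation.toSubmodule_injective
      ext v
      constructor
      · intro _; trivial
      · intro _
        rw [hc v]
        exact Submodule.zero_mem _
    exact bot_ne_top h1
  have hgen : ∀ y ∈ Q, y ≠ 1 → ∀ z ∈ Q, ∃ i : ℕ, y ^ i = z := by
    intro y hy hy1 z hz
    obtain ⟨i, hi⟩ := mem_powers_of_prime_card (G := Q) (p := p) hQ (g := ⟨y, hy⟩)
      (g' := ⟨z, hz⟩) (fun h => hy1 (congrArg Subtype.val h))
    exact ⟨i, congrArg Subtype.val hi⟩
  by_cases hx1 : x = 1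
  · rw [hx1, map_one]
  have hxp : x ^ p = 1 := by
    have h1 : (⟨x, hx⟩ : Q) ^ Nat.card Q = 1 := pow_card_eq_one'
    rw [hQ] at h1
    exact congrArg Subtype.val h1
  have hnil : (τ x - 1) ^ p = 0 := by
    have h1 : Polynomial.aeval (τ x) ((Polynomial.X - 1 : Polynomial F) ^ p) =
        Polynomial.aeval (τ x) ((Polynomial.X : Polynomial F) ^ p - 1 ^ p) := by
      rw [sub_pow_char]
    rw [map_pow, map_sub, Polynomial.aeval_X, map_one, map_sub, map_pow, Polynomial.aeval_X,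
      one_pow, map_one, ← map_pow, hxp, map_one, sub_self] at h1
    exact h1
  have hker : LinearMap.ker (τ x - 1 : W →ₗ[F] W) ≠ ⊥ := by
    intro hk
    have hinj : Function.Injective (τ x - 1 : W →ₗ[F] W) := LinearMap.ker_eq_bot.1 hk
    have h2 : ∀ n : ℕ, Function.Injective ((τ x - 1 : W →ₗ[F] W) ^ n : W →ₗ[F] W) := by
      intro n
      rw [Module.End.coe_pow]
      exact hinj.iterate n
    apply hw₀
    apply h2 p
    rw [map_zero]
    have h3 : (((τ x - 1 : W →ₗ[F] W) ^ p : W →ₗ[F] W)) w₀ = (0 : W →ₗ[F] W) w₀ := by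
      rw [hnil]
    exact h3
  have hfix : ∀ v, v ∈ LinearMap.ker (τ x - 1 : W →ₗ[F] W) ↔ ∀ y ∈ Q, τ y v = v := by
    intro v
    rw [LinearMap.mem_ker, LinearMap.sub_apply, sub_eq_zero]
    constructor
    · intro h y hy
      obtain ⟨i, rfl⟩ := hgen x hx hx1 y hy
      rw [map_pow]
      induction i with
      | zero => rw [pow_zero]; rfl
      | succ i ih =>
        rw [pow_succ, Module.End.mul_apply, h]
        exact ih (Q.pow_mem hx i)
    · intro h
      exact h x hx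
  have hstab : ∀ (b : B) (v : W), v ∈ LinearMap.ker (τ x - 1 : W →ₗ[F] W) →
      τ b v ∈ LinearMap.ker (τ x - 1 : W →ₗ[F] W) := by
    intro b v hv
    rw [hfix] at hv ⊢
    intro y hy
    have h1 : τ y (τ b v) = τ b (τ (b⁻¹ * y * b) v) := by
      rw [← Module.End.mul_apply, ← Module.End.mul_apply, ← map_mul, ← map_mul]
      congr 2
      group
    have h2 : b⁻¹ * y * b ∈ Q := by
      have := hQn.conj_mem y hy b⁻¹
      rwa [inv_inv] at this
    rw [h1, hv _ h2]
  rcases hirr.eq_bot_or_eq_top (⟨LinearMap.ker (τ x - 1 : W →ₗ[F] W), fun b v hv =>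
    hstab b v hv⟩ : Subrepresentation τ) with h1 | h1
  · exfalso
    apply hker
    exact congrArg Subrepresentation.toSubmodule h1
  · have h2 : LinearMap.ker (τ x - 1 : W →ₗ[F] W) = ⊤ :=
      congrArg Subrepresentation.toSubmodule h1
    ext v
    have h3 : v ∈ LinearMap.ker (τ x - 1 : W →ₗ[F] W) := by rw [h2]; trivial
    rw [LinearMap.mem_ker, LinearMap.sub_apply, sub_eq_zero] at h3
    exact h3

end tr

/-- Brick D4. -/
theorem t_D4 : D4 := by
  intro p _ F _ _ _ B X _ _ _ _ Q ι hQn hQ hι n τ hirr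
  by_contra hcon
  push Not at hcon
  obtain ⟨w₀, hw₀⟩ : ∃ w₀ : Fin n → F, w₀ ≠ 0 := by
    by_contra hc
    push Not at hc
    have h1 : (⊥ : Subrepresentation τ) = ⊤ := by
      apply Subrepresentation.toSubmodule_injective
      ext v
      constructor
      · intro _; trivial
      · intro _
        rw [hc v]
        exact Submodule.zero_mem _
    exact bot_ne_top h1
  exact no_occ ι τ hcon _ _ _ rfl (ind_occ Q hQ ι hι τ (triv Q hQn hQ τ hirr) w₀ hw₀)

/-- Brick D6. -/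
theorem t_D6 : D6 := by
  intro F _ B X _ _ _ _ ι hι m n ρ τ hθ
  obtain ⟨θ, hθ⟩ := hθ
  letI := Fintype.ofFinite B
  letI := Fintype.ofFinite X
  letI := Fintype.ofFinite (X ⧸ ι.range)
  letI := Fintype.ofFinite ι.range
  rw [occS_iff]
  rintro ⟨f, hf, hno⟩
  obtain ⟨θ', hθ'⟩ : ∃ θ' : (Fin m → F) →ₗ[F] (Fin m → F),
    θ' = ∑ c : X ⧸ ι.range, ρ (c.out)⁻¹ ∘ₗ θ ∘ₗ ρ c.out := ⟨_, rfl⟩
  refine hno ⟨θ' ∘ₗ f, ?_⟩
  ext1 i
  apply LinearMap.ext
  intro a
  obtain ⟨w, hw⟩ : ∃ w, w = (LinearMap.single F (fun _ : Fin n => F) i) a := ⟨_, rfl⟩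
  show f _ = trB ι ρ τ (θ' ∘ₗ f) _
  rw [← hw]
  have h1 : f w = ∑ x : X, ρ x (θ (ρ x⁻¹ (f w))) := by
    have h2 : Tr ρ θ (f w) = f w := by rw [hθ]; rfl
    refine h2.symm.trans ?_
    unfold Tr
    rw [LinearMap.sum_apply]
    exact Finset.sum_congr (by ext; simp) fun _ _ => rfl
  rw [h1, ← Equiv.sum_comp (Equiv.inv X) (fun x : X => ρ x (θ (ρ x⁻¹ (f w)))),
    sum_cosets ι.range, trB_apply, ← Equiv.sum_comp (Equiv.inv B)
    (fun b : B => ρ (ι b) ((θ' ∘ₗ f) (τ b⁻¹ w))), Finset.sum_comm,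
    ← Equiv.sum_comp (MonoidHom.ofInjective hι).toEquiv]
  refine Finset.sum_congr rfl fun b _ => ?_
  show ∑ c : X ⧸ ι.range, ρ (c.out * ι b)⁻¹ (θ (ρ (((c.out * ι b)⁻¹)⁻¹) (f w))) =
    ρ (ι b⁻¹) (θ' (f (τ (b⁻¹)⁻¹ w)))
  rw [inv_inv, ← hf, hθ', LinearMap.sum_apply, map_sum]
  refine Finset.sum_congr rfl fun c _ => ?_
  rw [inv_inv, mul_inv_rev, map_mul, map_mul, Module.End.mul_apply, Module.End.mul_apply, map_inv ι]
  rfl

end Pool.Agent.K3h50.CY
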