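import Pool.Agent.K3h50.CY.D4
import Pool.Agent.K3h69.IN.M4a

/-! # Brick E1 (helper83's cyclic wave): endomorphisms of the restriction are scalars up to traces -/

set_option autoImplicit false

open scoped BigOperators Classical

noncomputable section

namespace Pool.Agent.K3h50.CY

open Pool.Agent.K3h83.IN Pool.Agent.K3h3.MK
open Pool.Agent.K3h69.IN (schurF cj cj_apply rho_mul rho_inv_self rho_self_inv cj_mul cq cq_mk
  cq_smul rT rT_apply rT_comm)

/-- the elements of order `p` lie in `Q` -/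
lemma mem_Q {p : ℕ} [hp : Fact p.Prime] {B : Type} [Group B] [Finite B] {Q P H : Subgroup B}
    (h : LC p Q P H) (b : B) (hb : b ^ p = 1) : b ∈ Q := by
  haveI := h.nQ
  haveI := h.nH
  haveI := h.cyc
  have hpos : 0 < p := hp.out.pos
  -- `b ∈ H P`
  have h1 : b ∈ H ⊔ P := by
    haveI hn : (H ⊔ P).Normal := by
      rw [← h.cen]
      infer_instance
    have h2 : b ^ (H ⊔ P).index ∈ H ⊔ P := Subgroup.pow_index_mem (H ⊔ P) b
    have h3 : Nat.Coprime (H ⊔ P).index p := ((hp.out.coprime_iff_not_dvd).2 h.idx).symm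
    obtain ⟨m, -, hm⟩ := Nat.exists_mul_mod_eq_one_of_coprime h3 hp.out.one_lt
    have h4 : b ^ ((H ⊔ P).index * m) = b := by
      rw [← Nat.div_add_mod ((H ⊔ P).index * m) p, hm, pow_add, pow_mul, hb, one_pow, one_mul,
        pow_one]
    rw [← h4, pow_mul]
    exact (H ⊔ P).pow_mem h2 m
  obtain ⟨y, hy, x, hx, hyx⟩ := Subgroup.mem_sup_of_normal_left.1 h1
  have hyc : ∀ g ∈ H, g ^ p = 1 → g = 1 := by
    intro g hg hgp
    have h2 : orderOf g ∣ p := orderOf_dvd_of_pow_eq_one hgp
    have h3 : orderOf g ∣ Nat.card H := by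
      have := orderOf_dvd_natCard (⟨g, hg⟩ : H)
      rwa [Subgroup.orderOf_mk] at this
    rcases (Nat.dvd_prime hp.out).1 h2 with h4 | h4
    · exact orderOf_eq_one_iff.1 h4
    · exact absurd (h4 ▸ h3) h.cH
  -- `x ^ p = 1`
  have hxH : x ^ p ∈ H := by
    have h2 : ((x : B ⧸ H)) = (b : B ⧸ H) := by
      rw [← hyx, QuotientGroup.mk_mul, (QuotientGroup.eq_one_iff y).2 hy, one_mul]
    rw [← QuotientGroup.eq_one_iff, QuotientGroup.mk_pow, h2, ← QuotientGroup.mk_pow, hb]
    rfl
  have hxp : x ^ p = 1 := by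
    have h2 : x ^ p ∈ P := P.pow_mem hx p
    obtain ⟨k, hk⟩ := h.pP ⟨x ^ p, h2⟩
    have h3 : (x ^ p) ^ p ^ k = 1 := congrArg Subtype.val hk
    have h4 : orderOf (x ^ p) ∣ p ^ k := orderOf_dvd_of_pow_eq_one h3
    have h5 : orderOf (x ^ p) ∣ Nat.card H := by
      have := orderOf_dvd_natCard (⟨x ^ p, hxH⟩ : H)
      rwa [Subgroup.orderOf_mk] at this
    have h6 : Nat.Coprime (p ^ k) (Nat.card H) :=
      Nat.Coprime.pow_left k ((hp.out.coprime_iff_not_dvd).2 h.cH)
    exact orderOf_eq_one_iff.1 (Nat.dvd_one.1 (h6 ▸ Nat.dvd_gcd h4 h5))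
  -- `x ∈ Q`
  have hxQ : x ∈ Q := by
    letI := Fintype.ofFinite P
    letI := Fintype.ofFinite Q
    have h2 : (Finset.univ.filter fun a : P => a ^ p = 1).card ≤ p :=
      IsCyclic.card_pow_eq_one_le hpos
    have h3 : (Finset.univ.image fun z : Q => (⟨(z : B), h.QP z.2⟩ : P)) ⊆
        (Finset.univ.filter fun a : P => a ^ p = 1) := by
      intro a ha
      obtain ⟨z, _, rfl⟩ := Finset.mem_image.1 ha
      rw [Finset.mem_filter]
      refine ⟨Finset.mem_univ _, Subtype.ext ?_⟩
      have h4 : z ^ Nat.card Q = 1 := pow_card_eq_one'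
      rw [h.cQ] at h4
      have h5 : (z : B) ^ p = 1 := congrArg Subtype.val h4
      exact h5
    have h4 : (Finset.univ.image fun z : Q => (⟨(z : B), h.QP z.2⟩ : P)).card = p := by
      rw [Finset.card_image_of_injective, Finset.card_univ, ← Nat.card_eq_fintype_card, h.cQ]
      intro a a' haa
      have h8 : (⟨(a : B), h.QP a.2⟩ : P) = ⟨(a' : B), h.QP a'.2⟩ := haa
      exact Subtype.ext (congrArg (fun z : P => (z : B)) h8)
    have h5 := Finset.eq_of_subset_of_card_le h3 (by rw [h4]; exact h2)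
    have h6 : (⟨x, hx⟩ : P) ∈ (Finset.univ.filter fun a : P => a ^ p = 1) := by
      rw [Finset.mem_filter]
      exact ⟨Finset.mem_univ _, Subtype.ext hxp⟩
    rw [← h5] at h6
    obtain ⟨z, _, hz⟩ := Finset.mem_image.1 h6
    have h7 : (z : B) = x := congrArg Subtype.val hz
    rw [← h7]
    exact z.2
  -- `y = 1`
  have hcomm : y * x = x * y := by
    have h2 : y ∈ Subgroup.centralizer (Q : Set B) := by
      rw [h.cen]
      exact Subgroup.mem_sup_left hy
    exact (Subgroup.mem_centralizer_iff.1 h2 x hxQ).symm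
  have h2 : y = 1 := by
    apply hyc y hy
    have h3 : b ^ p = y ^ p * x ^ p := by
      rw [← hyx]
      exact (show Commute y x from hcomm).mul_pow p
    rw [hb, hxp, mul_one] at h3
    exact h3.symm
  rw [← hyx, h2, one_mul]
  exact hxQ

section orb

variable {F B V Ω : Type} [Field F] [Group B] [Finite B] [AddCommGroup V] [Module F V]
  [MulAction B Ω]

/-- sums over orbits with stabilizers of order prime to the characteristic are traces -/
lemma orb (σ : Representation F B V) (T : Ω → (V →ₗ[F] V))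
    (hT : ∀ (b : B) (q : Ω) (v : V), T (b • q) (σ b v) = σ b (T q v)) :
    ∀ (n : ℕ) (s : Finset Ω), s.card = n → (∀ b : B, ∀ q ∈ s, b • q ∈ s) →
      (∀ q ∈ s, ((Nat.card (MulAction.stabilizer B q) : ℕ) : F) ≠ 0) →
      ∃ β : V →ₗ[F] V, ∀ v, ∑ q ∈ s, T q v = trB (MonoidHom.id B) σ σ β v := by
  letI := Fintype.ofFinite B
  intro n
  induction n using Nat.strong_induction_on with
  | _ n ih =>
    intro s hsn hs hcop
    rcases s.eq_empty_or_nonempty with rfl | ⟨q, hq⟩
    · refine ⟨0, fun v => ?_⟩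
      rw [Finset.sum_empty, trB_apply]
      refine (Finset.sum_eq_zero fun b _ => ?_).symm
      rw [LinearMap.zero_apply, map_zero]
    · obtain ⟨O, hOdef⟩ : ∃ O : Finset Ω, O = Finset.univ.image fun y : B => y • q := ⟨_, rfl⟩
      have hO : O ⊆ s := by
        intro r hr
        rw [hOdef] at hr
        obtain ⟨y, _, rfl⟩ := Finset.mem_image.mp hr
        exact hs y q hq
      have hqO : q ∈ O := by
        rw [hOdef]
        exact Finset.mem_image.mpr ⟨1, Finset.mem_univ _, one_smul _ _⟩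
      obtain ⟨β', hβ'⟩ := ih (s \ O).card (by
        rw [← hsn]
        exact Finset.card_lt_card (Finset.sdiff_ssubset hO ⟨q, hqO⟩)) (s \ O) rfl (by
        intro y r hr
        rw [Finset.mem_sdiff] at hr ⊢
        refine ⟨hs y r hr.1, fun h => hr.2 ?_⟩
        rw [hOdef] at h ⊢
        obtain ⟨z, _, hz⟩ := Finset.mem_image.mp h
        refine Finset.mem_image.mpr ⟨y⁻¹ * z, Finset.mem_univ _, ?_⟩
        have hz' : z • q = y • r := hz
        show (y⁻¹ * z) • q = r
        rw [mul_smul, hz', inv_smul_smul]) (fun r hr => hcop r (Finset.mem_sdiff.1 hr).1)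
      obtain ⟨a, ha⟩ : ∃ a : F, a = ((Nat.card (MulAction.stabilizer B q) : ℕ) : F) := ⟨_, rfl⟩
      have ha0 : a ≠ 0 := by
        rw [ha]
        exact hcop q hq
      refine ⟨β' + a⁻¹ • T q, fun v => ?_⟩
      rw [← Finset.sum_sdiff hO, hβ', trB_add, LinearMap.add_apply]
      congr 1
      rw [trB_apply]
      have h1 : ∀ b : B, σ (MonoidHom.id B b) ((a⁻¹ • T q) (σ b⁻¹ v)) = a⁻¹ • T (b • q) v := by
        intro b
        rw [LinearMap.smul_apply, map_smul]
        congr 1
        show σ b (T q (σ b⁻¹ v)) = T (b • q) v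
        rw [← hT, rho_self_inv]
      rw [Finset.sum_congr rfl fun b _ => h1 b, ← Finset.smul_sum,
        ← Finset.sum_fiberwise_of_maps_to (s := Finset.univ) (t := O) (g := fun b : B => b • q)
          (fun b _ => by rw [hOdef]; exact Finset.mem_image_of_mem _ (Finset.mem_univ b))
          (fun b : B => T (b • q) v), Finset.smul_sum]
      refine Finset.sum_congr rfl fun r hr => ?_
      rw [hOdef] at hr
      obtain ⟨b₀, _, hb₀⟩ := Finset.mem_image.mp hr
      have hb₀' : b₀ • q = r := hb₀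
      have h2 : ∑ b ∈ Finset.univ.filter (fun b : B => b • q = r), T (b • q) v =
          ∑ _b ∈ Finset.univ.filter (fun b : B => b • q = r), T r v := by
        refine Finset.sum_congr rfl fun b hb => ?_
        rw [(Finset.mem_filter.1 hb).2]
      have e : MulAction.stabilizer B q ≃ {b : B // b • q = r} :=
        { toFun := fun x => ⟨b₀ * x, by rw [mul_smul, MulAction.mem_stabilizer_iff.1 x.2, hb₀']⟩
          invFun := fun b => ⟨b₀⁻¹ * b, by
            rw [MulAction.mem_stabilizer_iff, mul_smul, b.2, ← hb₀', inv_smul_smul]⟩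
          left_inv := fun x => Subtype.ext (by simp)
          right_inv := fun b => Subtype.ext (by simp) }
      have h3 : (Finset.univ.filter (fun b : B => b • q = r)).card =
          Nat.card (MulAction.stabilizer B q) := by
        rw [Nat.card_congr e, Nat.card_eq_fintype_card, Fintype.card_subtype]
      rw [h2, Finset.sum_const, h3, ← Nat.cast_smul_eq_nsmul F, ← ha, smul_smul,
        inv_mul_cancel₀ ha0, one_smul]

end orb

/-- Brick E1. -/
theorem erase_congr' {α : Type} (i1 i2 : DecidableEq α) (s : Finset α) (a : α) :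
    @Finset.erase α i1 s a = @Finset.erase α i2 s a := by
  rw [Subsingleton.elim i1 i2]

theorem t_E1 : E1 := by
  intro p hp F _ _ _ B X _ _ _ _ Q P H ι hLC hEC m ρ hirr η hη₀
  letI := Fintype.ofFinite (X ⧸ ι.range)
  have hη : ∀ h ∈ ι.range, ∀ v, ρ h (η v) = η (ρ h v) := by
    rintro h ⟨b, rfl⟩ v
    exact hη₀ b v
  obtain ⟨c, hc⟩ := schurF ρ hirr (rT ρ η ι.range hη) (fun h v => rT_comm ρ η ι.range hη h v)
  letI : MulAction B (X ⧸ ι.range) := MulAction.compHom _ ι
  have hsm : ∀ (b : B) (q : X ⧸ ι.range), b • q = ι b • q := fun b q => rfl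
  obtain ⟨β, hβ⟩ := orb (B := B) (ρ.comp ι) (fun q : X ⧸ ι.range => cq ρ η ι.range hη q)
    (fun b q v => cq_smul ρ η ι.range hη (ι b) q v) _
    (Finset.univ.erase ((1 : X) : X ⧸ ι.range)) rfl (by
      intro b q hq
      rw [Finset.mem_erase] at hq ⊢
      refine ⟨fun h => hq.1 ?_, Finset.mem_univ _⟩
      have e : q = (ι b)⁻¹ • ((1 : X) : X ⧸ ι.range) := by
        rw [← h, hsm, inv_smul_smul]
      rw [e]
      show (((ι b)⁻¹ * 1 : X) : X ⧸ ι.range) = ((1 : X) : X ⧸ ι.range)
      rw [mul_one, QuotientGroup.eq, inv_inv, mul_one]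
      exact ⟨b, rfl⟩) (by
      intro q hq
      rw [Ne, CharP.cast_eq_zero_iff F p]
      intro hdvd
      obtain ⟨x, hx⟩ := exists_prime_orderOf_dvd_card' (G := MulAction.stabilizer B q) p hdvd
      obtain ⟨b, hb⟩ : ∃ b : B, b = (x : B) := ⟨_, rfl⟩
      have hbp : b ^ p = 1 := by
        have h1 : x ^ p = 1 := by rw [← hx]; exact pow_orderOf_eq_one x
        rw [hb]
        exact congrArg Subtype.val h1
      have hb1 : b ≠ 1 := by
        intro h1
        have h2 : x = 1 := Subtype.ext (by rw [← hb, h1]; rfl)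
        rw [h2, orderOf_one] at hx
        exact hp.out.one_lt.ne hx
      have hbq : b • q = q := by
        rw [hb]
        exact MulAction.mem_stabilizer_iff.1 x.2
      obtain ⟨g, rfl⟩ := QuotientGroup.mk_surjective q
      apply (Finset.mem_erase.mp hq).1
      have h3 : ((ι b * g : X) : X ⧸ ι.range) = (g : X ⧸ ι.range) := hbq
      have h4 : g⁻¹ * ι b * g ∈ ι.range := by
        have := QuotientGroup.eq.mp h3.symm
        rwa [← mul_assoc] at this
      obtain ⟨b', hb'⟩ := h4
      have hcj : ∀ i : ℕ, g⁻¹ * ι (b ^ i) * (g⁻¹)⁻¹ = ι (b' ^ i) := by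
        intro i
        have e1 : g⁻¹ * ι b * (g⁻¹)⁻¹ = ι b' := by rw [inv_inv, hb']
        rw [map_pow, map_pow, ← conj_pow, e1]
      have hb'p : b' ^ p = 1 := by
        apply hEC.inj
        rw [← hcj p, hbp, map_one, mul_one, mul_inv_cancel]
      have hbQ := mem_Q hLC b hbp
      have hb'Q := mem_Q hLC b' hb'p
      have h5 : g⁻¹ ∈ ι.range := by
        refine hEC.nor g⁻¹ fun y hy => ?_
        obtain ⟨i, hi⟩ := mem_powers_of_prime_card (G := Q) (p := p) hLC.cQ (g := ⟨b, hbQ⟩)
          (g' := ⟨y, hy⟩) (fun h => hb1 (congrArg Subtype.val h))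
        have hi' : b ^ i = y := congrArg Subtype.val hi
        exact ⟨b' ^ i, Q.pow_mem hb'Q i, by rw [← hi', hcj]⟩
      rw [QuotientGroup.eq, mul_one]
      exact h5)
  refine ⟨c, -β, ?_⟩
  letI := Fintype.ofFinite B
  show η = c • (1 : (Fin m → F) →ₗ[F] (Fin m → F)) + trB (MonoidHom.id B) (ρ.comp ι) (ρ.comp ι) (-β)
  apply LinearMap.ext
  intro v
  have h1 := hc v
  rw [rT_apply, ← Finset.add_sum_erase _ _ (Finset.mem_univ ((1 : X) : X ⧸ ι.range)), cq_mk,
    cj_apply, inv_one, map_one] at h1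
  have h2 : η v + trB (MonoidHom.id B) (ρ.comp ι) (ρ.comp ι) β v = c • v := by
    change η v + _ = c • v at h1
    rw [← hβ v]
    refine Eq.trans ?_ h1
    refine congrArg (fun z => η v + z) ?_
    exact Finset.sum_congr (erase_congr' _ _ _ _) fun _ _ => rfl
  have h3 : trB (MonoidHom.id B) (ρ.comp ι) (ρ.comp ι) (-β) v =
      - trB (MonoidHom.id B) (ρ.comp ι) (ρ.comp ι) β v := by
    rw [trB_apply, trB_apply, ← Finset.sum_neg_distrib]
    refine Finset.sum_congr rfl fun b _ => ?_
    rw [LinearMap.neg_apply, map_neg]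
  rw [LinearMap.add_apply, h3, LinearMap.smul_apply, Module.End.one_apply, ← h2]
  abel

end Pool.Agent.K3h50.CY
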